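import Pool.Agent.N20.AE.Stm
import Pool.Agent.N85.WM.Val
import Pool.Agent.Y286.NV.Fin

/-!
# One block above `B` (helper291, subtask 7215, statement `S_PB` of helper20)
-/

set_option autoImplicit false
set_option linter.unusedSectionVars false

open scoped Classical BigOperators

noncomputable section

namespace Pool.Agent.N291.AEPB

open Pool.Agent.Y63.NV
open Pool.Agent.Y63.KR
open Pool.Agent.Y63.AWC (IsIrreducibleCharacter irr_comp)
open Pool.Agent.N20.DI (HasDef Dg)
open Pool.Agent.N20.AE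
open Pool.Agent.N85.WM (BEq cnt_mod)
open Pool.Agent.Y63.NV.B286 (single_class)
open Pool.Agent.Y286.NV (centralValue_comp irr_class)

section gen

variable {F : Type} [Field F] {G : Type} [Group G] [Finite G]

/-- counting with a property of blocks -/
theorem cnt_P {X Y : Type} [Finite X] [Finite Y] (a : X → (G → F) → F) (b : Y → (G → F) → F)
    (ha : ∀ x, IsBlock (a x)) (hb : ∀ y, IsBlock (b y)) (P : ((G → F) → F) → Prop)
    (hP : ∀ B B', BEq B B' → P B → P B')
    (h : ∀ B : (G → F) → F, IsBlock B → P B →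
      Nat.card {x // BEq (a x) B} = Nat.card {y // BEq (b y) B}) :
    Nat.card {x // P (a x)} = Nat.card {y // P (b y)} := by
  have key := cnt_mod (X := {x // P (a x)}) (Y := {y // P (b y)}) (fun x => a x.1) (fun y => b y.1)
    (fun x => ha x.1) (fun y => hb y.1) 0 (by
      intro B hB
      rw [Nat.modEq_zero_iff]
      by_cases hPB : P B
      · have e1 : Nat.card {x : {x // P (a x)} // BEq (a x.1) B} = Nat.card {x // BEq (a x) B} :=
          Nat.card_congr
            { toFun := fun x => ⟨x.1.1, x.2⟩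
              invFun := fun x => ⟨⟨x.1, hP B _ x.2.symm hPB⟩, x.2⟩
              left_inv := fun _ => rfl
              right_inv := fun _ => rfl }
        have e2 : Nat.card {y : {y // P (b y)} // BEq (b y.1) B} = Nat.card {y // BEq (b y) B} :=
          Nat.card_congr
            { toFun := fun x => ⟨x.1.1, x.2⟩
              invFun := fun x => ⟨⟨x.1, hP B _ x.2.symm hPB⟩, x.2⟩
              left_inv := fun _ => rfl
              right_inv := fun _ => rfl }
        rw [e1, e2]
        exact h B hB hPB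
      · have i1 : IsEmpty {x : {x // P (a x)} // BEq (a x.1) B} :=
          ⟨fun x => hPB (hP _ _ x.2 x.1.2)⟩
        have i2 : IsEmpty {y : {y // P (b y)} // BEq (b y.1) B} :=
          ⟨fun x => hPB (hP _ _ x.2 x.1.2)⟩
        rw [Nat.card_of_isEmpty, Nat.card_of_isEmpty])
    (z := Pi.single 1 1) single_class 1
  rw [Nat.modEq_zero_iff] at key
  have e1 : Nat.card {x : {x // P (a x)} // a x.1 (Pi.single 1 1) = 1} = Nat.card {x // P (a x)} :=
    Nat.card_congr
      { toFun := fun x => x.1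
        invFun := fun x => ⟨x, (ha x.1).one⟩
        left_inv := fun _ => rfl
        right_inv := fun _ => rfl }
  have e2 : Nat.card {y : {y // P (b y)} // b y.1 (Pi.single 1 1) = 1} = Nat.card {y // P (b y)} :=
    Nat.card_congr
      { toFun := fun x => x.1
        invFun := fun x => ⟨x, (hb x.1).one⟩
        left_inv := fun _ => rfl
        right_inv := fun _ => rfl }
  rw [← e1, ← e2]
  exact key

end gen

section conj

variable {G : Type} [Group G]

theorem card_conjSub (g : G) (P : Subgroup G) : Nat.card (conjSub g P) = Nat.card P :=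
  (Nat.card_congr (P.equivMapOfInjective _ (MulAut.conj g).injective).toEquiv).symm

theorem card_map_sub (N : Subgroup G) (P : Subgroup N) : Nat.card (P.map N.subtype) = Nat.card P :=
  (Nat.card_congr (P.equivMapOfInjective _ N.subtype_injective).toEquiv).symm

theorem conjSub_inf (g : G) (P Q : Subgroup G) : conjSub g (P ⊓ Q) = conjSub g P ⊓ conjSub g Q := by
  ext x
  rw [Subgroup.mem_inf, mem_conjSub, mem_conjSub, mem_conjSub, Subgroup.mem_inf]

theorem conjSub_normal (g : G) (P : Subgroup G) (hP : P.Normal) : conjSub g P = P := by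
  ext x
  rw [mem_conjSub]
  constructor
  · intro h
    have := hP.conj_mem _ h g
    have e : g * (g⁻¹ * x * g) * g⁻¹ = x := by group
    rwa [e] at this
  · intro h
    have := hP.conj_mem _ h g⁻¹
    rwa [inv_inv] at this

end conj

section

variable {p : ℕ} [hp : Fact p.Prime] {F : Type} [Field F] [IsAlgClosed F] [CharP F p]
  (red : integralClosure ℤ ℂ →+* F)

theorem defect_card {H : Type} [Group H] [Finite H] {B : (H → F) → F} {D : Subgroup H}
    (hD : IsDefectGroup p B D) : IsPGroup p D ∧ ∃ e : ℕ, Nat.card D = p ^ e := by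
  obtain ⟨x, -, -, -, h, -⟩ := hD
  exact ⟨h, IsPGroup.iff_card.1 h⟩

theorem block_cv {J : Type} [Group J] [Finite J] {χ : J → ℂ} (h : IsIrreducibleCharacter χ) :
    IsBlock (fun f : J → F => centralValue red χ f) := Pool.Agent.Y930.NV.cvh F red J χ h

/-- no characters of large defect in a block with small defect groups -/
theorem kB_zero (_h1 : S_MM) (h2 : S_HT) {H : Type} [Group H] [Finite H] {B : (H → F) → F}
    (hB : IsBlock B) {D : Subgroup H} (hD : IsDefectGroup p B D) {q d : ℕ}
    (hq : Nat.card D = p ^ q) (hlt : q < d) : kB p red d B = 0 := by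
  unfold kB
  have : IsEmpty {χ : H → ℂ // IsIrreducibleCharacter χ ∧ HasDef p d χ ∧
    ∀ f : H → F, IsClassFun f → centralValue red χ f = B f} := by
    refine ⟨fun χ => ?_⟩
    have := h2 p F red H B hB χ.1 χ.2.1 χ.2.2.2 d χ.2.2.1 D hD q hq
    omega
  exact Nat.card_of_isEmpty

theorem kI_zero (h1 : S_MM) (h2 : S_HT) (h4 : S_ID) {H : Type} [Group H] [Finite H]
    (N : Subgroup H) {B : (H → F) → F} (hB : IsBlock B) {D : Subgroup H}
    (hD : IsDefectGroup p B D) {q d : ℕ} (hq : Nat.card D = p ^ q) (hlt : q < d) :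
    kI p red d N B = 0 := by
  unfold kI
  have : IsEmpty {χ : N → ℂ // IsIrreducibleCharacter χ ∧ HasDef p d χ ∧
    ∀ f : H → F, IsClassFun f → centralValue red χ (fun x => f x) = B f} := by
    refine ⟨fun χ => ?_⟩
    have hc := block_cv (F := F) red χ.2.1
    obtain ⟨Q1, hQ1⟩ := (h1 p F N _ hc).1
    obtain ⟨q1, hq1⟩ := (defect_card hQ1).2
    have g1 := h2 p F red N _ hc χ.1 χ.2.1 (fun f _ => rfl) d χ.2.2.1 Q1 hQ1 q1 hq1
    obtain ⟨g, hg⟩ := h4 p F H N _ B hc hB (fun f hf => χ.2.2.2 f hf) Q1 D hQ1 hD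
    have g2 : Nat.card (conjSub g (Q1.map N.subtype)) ≤ Nat.card D :=
      Nat.card_le_card_of_injective _ (Subgroup.inclusion_injective hg)
    rw [card_conjSub, card_map_sub, hq1, hq] at g2
    have g3 : q1 ≤ q := (Nat.pow_le_pow_iff_right hp.out.one_lt).1 g2
    omega
  exact Nat.card_of_isEmpty

/-- transport of the characters of a subgroup -/
theorem kI_equiv {H : Type} [Group H] [Finite H] (d : ℕ) (N : Subgroup H) (b : (H → F) → F)
    {J : Type} [Group J] [Finite J] (e : J ≃* N) (r : J → H) (hr : ∀ x, r x = (e x : H)) :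
    kI p red d N b = Nat.card {χ : J → ℂ // IsIrreducibleCharacter χ ∧ HasDef p d χ ∧
      ∀ f : H → F, IsClassFun f → centralValue red χ (fun x => f (r x)) = b f} := by
  unfold kI
  have hcard : Nat.card J = Nat.card N := Nat.card_congr e.toEquiv
  have hres : ∀ f : H → F, IsClassFun f → IsClassFun (fun x : N => f x) := by
    intro f hf g x
    exact hf g x
  have hfun : ∀ f : H → F, (fun x : J => f (r x)) = fun x : J => (fun y : N => f y) (e x) := by
    intro f
    funext x
    rw [hr]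
  refine Nat.card_congr
    { toFun := fun χ => ⟨fun x => χ.1 (e x), irr_comp e χ.2.1, ?_, ?_⟩
      invFun := fun χ => ⟨fun x => χ.1 (e.symm x), irr_comp e.symm χ.2.1, ?_, ?_⟩
      left_inv := ?_
      right_inv := ?_ }
  · obtain ⟨n, hn1, hn2⟩ := χ.2.2.1
    refine ⟨n, ?_, by rw [hcard]; exact hn2⟩
    show χ.1 (e 1) = n
    rw [map_one]; exact hn1
  · intro f hf
    rw [hfun f, centralValue_comp red e χ.1 (irr_class χ.2.1) (fun y : N => f y) (hres f hf)]
    exact χ.2.2.2 f hf
  · obtain ⟨n, hn1, hn2⟩ := χ.2.2.1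
    refine ⟨n, ?_, by rw [← hcard]; exact hn2⟩
    show χ.1 (e.symm 1) = n
    rw [map_one]; exact hn1
  · intro f hf
    have h3 := χ.2.2.2 f hf
    rw [hfun f] at h3
    have h4 := centralValue_comp red e (fun x => χ.1 (e.symm x))
      (irr_class (irr_comp e.symm χ.2.1)) (fun y : N => f y) (hres f hf)
    have h5 : (fun x : J => χ.1 (e.symm (e x))) = χ.1 := by
      funext x
      rw [e.symm_apply_apply]
    rw [h5] at h4
    rw [← h4]
    exact h3
  · intro χ
    apply Subtype.ext
    funext x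
    show χ.1 (e (e.symm x)) = χ.1 x
    rw [e.apply_symm_apply]
  · intro χ
    apply Subtype.ext
    funext x
    show χ.1 (e.symm (e x)) = χ.1 x
    rw [e.symm_apply_apply]

end

/-- a subgroup `Q` of the normaliser `N` of `D0`, containing `D0` as its intersection with a normal
subgroup: the blocks of `N` which induce `b` -/
theorem step {p : ℕ} [hp : Fact p.Prime] {F : Type} [Field F] [IsAlgClosed F] [CharP F p]
    (red : integralClosure ℤ ℂ →+* F) (h1 : S_MM) (h2 : S_HT) (h3 : S_NP) (h4 : S_ID)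
    {K : Type} [Group K] [Finite K] (R : Subgroup K) (hR : R.Normal) (D0 Q : Subgroup K)
    (hD0 : IsPGroup p D0) (hQR : Q ⊓ R = D0)
    (hQN : Q ≤ Subgroup.normalizer (D0 : Set K)) {b : (K → F) → F} (hb : IsBlock b)
    (hQ : IsDefectGroup p b Q) (d : ℕ) (hd : Nat.card Q = p ^ d)
    (hAM : AMc p red (Subgroup.normalizer (D0 : Set K)))
    (c : (Subgroup.normalizer (D0 : Set K) → F) → F) (hc : IsBlock c)
    (hcb : ∀ f : K → F, IsClassFun f → c (fun x => f x) = b f) :
    kB p red d c = kI p red d (Subgroup.normalizer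
      ((Q.subgroupOf (Subgroup.normalizer (D0 : Set K)) :
        Subgroup (Subgroup.normalizer (D0 : Set K))) : Set (Subgroup.normalizer (D0 : Set K)))) c := by
  obtain ⟨N, hN⟩ : ∃ N : Subgroup K, N = Subgroup.normalizer (D0 : Set K) := ⟨_, rfl⟩
  have hD0Q : D0 ≤ Q := hQR ▸ inf_le_left
  have hD0R : D0 ≤ R := hQR ▸ inf_le_right
  have hD0N : D0 ≤ Subgroup.normalizer (D0 : Set K) := Subgroup.le_normalizer
  revert c hAM hQN hD0N
  rw [← hN]
  intro hQN hAM c hc hcb hD0N
  obtain ⟨Q1, hQ1⟩ := (h1 p F N c hc).1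
  obtain ⟨hQ1p, q1, hq1⟩ := defect_card hQ1
  obtain ⟨k, hk⟩ := h4 p F K N c b hc hb hcb Q1 Q hQ1 hQ
  have g2 : Nat.card (conjSub k (Q1.map N.subtype)) ≤ Nat.card Q :=
    Nat.card_le_card_of_injective _ (Subgroup.inclusion_injective hk)
  rw [card_conjSub, card_map_sub, hq1, hd] at g2
  have g3 : q1 ≤ d := (Nat.pow_le_pow_iff_right hp.out.one_lt).1 g2
  rcases g3.lt_or_eq with hlt | heq
  · rw [kB_zero red h1 h2 hc hQ1 hq1 hlt, kI_zero red h1 h2 h4 _ hc hQ1 hq1 hlt]
  · -- the defect groups of `c` have order `p ^ d`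
    have hkQ : conjSub k (Q1.map N.subtype) = Q := by
      apply Subgroup.eq_of_le_of_card_ge hk
      rw [card_conjSub, card_map_sub, hq1, hd, heq]
    have hnorm : (D0.subgroupOf N).Normal := by
      rw [Subgroup.normal_subgroupOf_iff_le_normalizer hD0N, hN]
    have hpn : IsPGroup p (D0.subgroupOf N) := hD0.comap_of_injective N.subtype N.subtype_injective
    have hle := h3 p F N c hc _ hnorm hpn Q1 hQ1
    have hD0Q1 : D0 ≤ Q1.map N.subtype := by
      intro x hx
      exact ⟨⟨x, hD0N hx⟩, hle (Subgroup.mem_subgroupOf.2 hx), rfl⟩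
    have hk1 : conjSub k D0 ≤ D0 := by
      have e1 : conjSub k D0 ≤ Q := hkQ ▸ conjSub_le hD0Q1
      have e2 : conjSub k D0 ≤ R := (conjSub_normal k R hR) ▸ conjSub_le hD0R
      rw [← hQR]
      rw [hQR]
      calc conjSub k D0 ≤ Q ⊓ R := le_inf e1 e2
        _ = D0 := hQR
    have hk2 : conjSub k D0 = D0 :=
      Subgroup.eq_of_le_of_card_ge hk1 (card_conjSub k D0).ge
    have hkN : k ∈ N := by rw [hN]; exact conjSub_eq_iff.1 hk2
    have hQ' : Q.subgroupOf N = conjSub ⟨k, hkN⟩ Q1 := by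
      ext x
      rw [Subgroup.mem_subgroupOf, mem_conjSub, ← hkQ, mem_conjSub]
      constructor
      · rintro ⟨y, hy, hyx⟩
        have : (⟨k, hkN⟩ : N)⁻¹ * x * ⟨k, hkN⟩ = y := by
          apply Subtype.ext
          exact hyx.symm
        rw [this]
        exact hy
      · intro h
        exact ⟨_, h, rfl⟩
    have hQd : IsDefectGroup p c (Q.subgroupOf N) :=
      ((h1 p F N c hc).2.2 Q1 hQ1 _).2 ⟨_, hQ'⟩
    refine hAM c hc _ hQd d ?_
    rw [hQ', card_conjSub, hq1, heq]

theorem PB (h1 : S_MM) (h2 : S_HT) (h3 : S_NP) (h4 : S_ID) (h5 : S_UP) (h6 : S_CV) : S_PB := by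
  intro p hp F _ _ _ red G K _ _ _ _ i B D z hS δ hδ hAK hAN b hb hbz
  obtain ⟨D0, hD0⟩ : ∃ D0 : Subgroup K, D0 = D.map i := ⟨_, rfl⟩
  rw [← hD0] at hAN ⊢
  obtain ⟨n, hn⟩ : ∃ n : ℕ, n = (i.range.index).factorization p := ⟨_, rfl⟩
  rw [← hn]
  have hD0c : Nat.card D0 = p ^ δ := by
    rw [hD0, ← hδ]
    exact (Nat.card_congr (D.equivMapOfInjective _ hS.inj).toEquiv).symm
  have hD0p : IsPGroup p D0 := IsPGroup.iff_card.2 ⟨δ, hD0c⟩
  have hRn := hS.normal
  -- a defect group of `b`
  obtain ⟨Q0, hQ0⟩ := (h1 p F K b hb).1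
  obtain ⟨⟨k, hk⟩, hdvd⟩ := h6 p F G K i B D z hS b hb hbz Q0 hQ0
  obtain ⟨Q, hQ⟩ : ∃ Q : Subgroup K, Q = conjSub k Q0 := ⟨_, rfl⟩
  have hQd : IsDefectGroup p b Q := ((h1 p F K b hb).2.2 Q0 hQ0 Q).2 ⟨k, hQ⟩
  rw [← hQ, ← hD0] at hk
  have hQc : Nat.card Q ∣ p ^ (δ + n) := by
    rw [hQ, card_conjSub, pow_add, ← hδ, hn]
    exact hdvd
  obtain ⟨hQp, q, hq⟩ := defect_card hQd
  have hqd : q ≤ δ + n := by
    rw [hq] at hQc
    exact (Nat.pow_dvd_pow_iff_le_right hp.out.one_lt).1 hQc
  rcases hqd.lt_or_eq with hlt | heq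
  · rw [kB_zero red h1 h2 hb hQd hq hlt, kI_zero red h1 h2 h4 _ hb hQd hq hlt]
  rw [← heq]
  -- the intersection of `Q` with the normal subgroup
  have hrel : i.range.relIndex Q ∣ p ^ n := by
    obtain ⟨e, he⟩ : ∃ e : ℕ, i.range.relIndex Q = p ^ e := by
      have g1 : i.range.relIndex Q ∣ Nat.card Q := Subgroup.relIndex_dvd_card _ _
      rw [hq, Nat.dvd_prime_pow hp.out] at g1
      obtain ⟨e, -, he⟩ := g1
      exact ⟨e, he⟩
    have g2 : i.range.relIndex Q ∣ i.range.index := Subgroup.relIndex_dvd_index_of_normal _ _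
    rw [he] at g2 ⊢
    have g3 : i.range.index ≠ 0 := Subgroup.index_ne_zero_of_finite
    have g4 := (hp.out.pow_dvd_iff_le_factorization g3).1 g2
    rw [← hn] at g4
    exact pow_dvd_pow p g4
  have hQR : Q ⊓ i.range = D0 := by
    apply Subgroup.eq_of_le_of_card_ge hk
    have g1 : Nat.card (Q ⊓ i.range : Subgroup K) * i.range.relIndex Q = Nat.card Q := by
      have := Subgroup.card_mul_index (i.range.subgroupOf Q)
      have e1 : Nat.card (i.range.subgroupOf Q) = Nat.card (Q ⊓ i.range : Subgroup K) := by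
        rw [inf_comm, ← Subgroup.subgroupOf_map_subtype]
        exact (card_map_sub Q _).symm
      rw [e1] at this
      exact this
    rw [hq, heq, pow_add] at g1
    rw [hD0c]
    have g2 := Nat.le_of_dvd (pow_pos hp.out.pos n) hrel
    by_contra hcon
    push Not at hcon
    have g3 : Nat.card (Q ⊓ i.range : Subgroup K) * i.range.relIndex Q < p ^ δ * p ^ n :=
      lt_of_le_of_lt (Nat.mul_le_mul_left _ g2) (Nat.mul_lt_mul_of_pos_right hcon (pow_pos hp.out.pos n))
    omega
  have hNQ : Subgroup.normalizer (Q : Set K) ≤ Subgroup.normalizer (D0 : Set K) := by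
    intro g hg
    rw [← conjSub_eq_iff] at hg ⊢
    rw [← hQR, conjSub_inf, hg, conjSub_normal g _ hRn]
  have hQN : Q ≤ Subgroup.normalizer (D0 : Set K) := Subgroup.le_normalizer.trans hNQ
  -- the conjecture for `K`
  have hK := hAK b hb Q hQd q hq
  rw [hK]
  obtain ⟨N, hN⟩ : ∃ N : Subgroup K, N = Subgroup.normalizer (D0 : Set K) := ⟨_, rfl⟩
  obtain ⟨Q', hQ'⟩ : ∃ Q' : Subgroup N, Q' = Q.subgroupOf N := ⟨_, rfl⟩
  obtain ⟨M, hM⟩ : ∃ M : Subgroup N, M = Subgroup.normalizer (Q' : Set N) := ⟨_, rfl⟩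
  have hstep : ∀ c : (N → F) → F, IsBlock c → (∀ f : K → F, IsClassFun f → c (fun x => f x) = b f) →
      kB p red q c = kI p red q M c := by
    subst hN hM hQ'
    intro c hc hcb
    exact step red h1 h2 h3 h4 i.range hRn D0 Q hD0p hQR hQN hb hQd q hq hAN c hc hcb
  rw [← hN] at hNQ hQN ⊢
  have hMQ : (Subgroup.normalizer (Q : Set K)).subgroupOf N = M := by
    rw [hM, hQ']
    exact Subgroup.subgroupOf_normalizer_eq hQN
  -- transport
  have htr := kI_equiv (p := p) red q (Subgroup.normalizer (Q : Set K)) b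
    ((MulEquiv.subgroupCongr hMQ.symm).trans (Subgroup.subgroupOfEquivOfLe hNQ))
    (fun x : M => ((x : N) : K)) (fun x => rfl)
  rw [htr]
  -- the count
  let X : Type := {χ : N → ℂ // IsIrreducibleCharacter χ ∧ HasDef p q χ}
  let Y : Type := {χ : M → ℂ // IsIrreducibleCharacter χ ∧ HasDef p q χ}
  have fX : Finite X :=
    ((Pool.Agent.Y914.NV.irr ℂ N).1.subset
      fun _ (h : IsIrreducibleCharacter _ ∧ HasDef p q _) => h.1).to_subtype
  have fY : Finite Y :=
    ((Pool.Agent.Y914.NV.irr ℂ M).1.subset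
      fun _ (h : IsIrreducibleCharacter _ ∧ HasDef p q _) => h.1).to_subtype
  have hQ'p : IsPGroup p Q' := by
    rw [hQ']
    exact hQp.comap_of_injective N.subtype N.subtype_injective
  have hcnt := cnt_P (X := X) (Y := Y) (fun χ (f : N → F) => centralValue red χ.1 f)
    (fun χ (f : N → F) => centralValue red χ.1 (fun x : M => f x))
    (fun χ => block_cv red χ.2.1)
    (fun χ => by
      obtain ⟨χ, hχ⟩ := χ
      revert χ
      subst hM
      intro χ hχ
      exact (h5 p F red N Q' hQ'p χ hχ.1).2)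
    (fun c => ∀ f : K → F, IsClassFun f → c (fun x => f x) = b f)
    (by
      intro c c' hcc hc f hf
      rw [← hc f hf]
      exact (hcc (fun x : N => f x) (fun g x => hf g x)).symm)
    (by
      intro c hc hcb
      have e1 : Nat.card {x : X // BEq (fun f : N → F => centralValue red x.1 f) c} =
          kB p red q c :=
        Nat.card_congr
          { toFun := fun x => ⟨x.1.1, x.1.2.1, x.1.2.2, x.2⟩
            invFun := fun x => ⟨⟨x.1, x.2.1, x.2.2.1⟩, x.2.2.2⟩
            left_inv := fun _ => rfl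
            right_inv := fun _ => rfl }
      have e2 : Nat.card {y : Y // BEq (fun f : N → F => centralValue red y.1 (fun x : M => f x)) c} =
          kI p red q M c :=
        Nat.card_congr
          { toFun := fun x => ⟨x.1.1, x.1.2.1, x.1.2.2, x.2⟩
            invFun := fun x => ⟨⟨x.1, x.2.1, x.2.2.1⟩, x.2.2.2⟩
            left_inv := fun _ => rfl
            right_inv := fun _ => rfl }
      rw [e1, e2]
      exact hstep c hc hcb)
  have e3 : Nat.card {x : X // ∀ f : K → F, IsClassFun f → centralValue red x.1 (fun x : N => f x) = b f} =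
      kI p red q N b :=
    Nat.card_congr
      { toFun := fun x => ⟨x.1.1, x.1.2.1, x.1.2.2, x.2⟩
        invFun := fun x => ⟨⟨x.1, x.2.1, x.2.2.1⟩, x.2.2.2⟩
        left_inv := fun _ => rfl
        right_inv := fun _ => rfl }
  have e4 : Nat.card {y : Y // ∀ f : K → F, IsClassFun f →
        centralValue red y.1 (fun x : M => f ((x : N) : K)) = b f} =
      Nat.card {χ : M → ℂ // IsIrreducibleCharacter χ ∧ HasDef p q χ ∧
        ∀ f : K → F, IsClassFun f → centralValue red χ (fun x => f ((x : N) : K)) = b f} :=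
    Nat.card_congr
      { toFun := fun x => ⟨x.1.1, x.1.2.1, x.1.2.2, x.2⟩
        invFun := fun x => ⟨⟨x.1, x.2.1, x.2.2.1⟩, x.2.2.2⟩
        left_inv := fun _ => rfl
        right_inv := fun _ => rfl }
  rw [← e4, ← e3]
  exact hcnt.symm

end Pool.Agent.N291.AEPB
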