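import Pool.Agent.N699.AO.Stm

/-!
# Project AO, parts RS2, RS3, RSP (helper291): nonsingular solutions mod `p`
-/

set_option autoImplicit false

namespace Pool.Agent.N291.AO

open Finset Pool.Agent.N699.AO

/-! ### `p = 2`, `p = 3` -/

lemma two_ne : (2 : ZMod 3) ≠ 0 := by decide

lemma dec2 : ∀ u ν : ZMod 2, 4 ≤ (univ.filter (fun p : ZMod 2 × ZMod 2 × ZMod 2 =>
    20 * (u * p.1) ^ 2 + 2 * (u * p.1) + p.2.1 ^ 2 + p.2.2 ^ 2 + p.2.2 = ν ∧
      2 * p.2.2 + 1 ≠ 0)).card := by decide

lemma dec3 : ∀ u : ZMod 3, u ≠ 0 → ∀ ν : ZMod 3,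
    4 ≤ (univ.filter (fun p : ZMod 3 × ZMod 3 × ZMod 3 =>
    20 * (u * p.1) ^ 2 + 2 * (u * p.1) + p.2.1 ^ 2 + p.2.2 ^ 2 + p.2.2 = ν ∧
      2 * p.2.2 + 1 ≠ 0)).card := by decide

theorem t_RS2 : RS2 := fun k ν => dec2 (2 ^ k) ν

theorem t_RS3 : RS3 := by
  intro k ν
  have h3 : Fact (Nat.Prime 3) := ⟨Nat.prime_three⟩
  have h2 : (2 : ZMod 3) ^ k ≠ 0 := pow_ne_zero _ two_ne
  exact dec3 (2 ^ k) h2 ν

/-! ### `p ≥ 5` -/

section P

variable {p : ℕ} [hp : Fact p.Prime]

lemma card_sq (c : ZMod p) : (univ.filter (fun x : ZMod p => x ^ 2 = c)).card ≤ 2 := by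
  classical
  by_cases h : ∃ x0 : ZMod p, x0 ^ 2 = c
  · obtain ⟨x0, h0⟩ := h
    have h1 : univ.filter (fun x : ZMod p => x ^ 2 = c) ⊆ {x0, -x0} := by
      intro x hx
      rw [mem_filter] at hx
      have h2 : x ^ 2 = x0 ^ 2 := by rw [hx.2, h0]
      rcases sq_eq_sq_iff_eq_or_eq_neg.1 h2 with h3 | h3
      · simp [h3]
      · simp [h3]
    exact (card_le_card h1).trans card_le_two
  · push Not at h
    rw [filter_false_of_mem (fun x _ => h x)]
    simp

/-- the parametrization of the conic by lines -/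
noncomputable def par (s0 y0 : ZMod p) : Option (ZMod p) → ZMod p × ZMod p
  | none => (s0, -y0)
  | some m => (s0 + -2 * (s0 + m * y0) / (1 + m ^ 2), y0 + m * (-2 * (s0 + m * y0) / (1 + m ^ 2)))

lemma conic (h2 : (2 : ZMod p) ≠ 0) (w : ZMod p) (hw : w ≠ 0) :
    p ≤ (univ.filter (fun q : ZMod p × ZMod p => q.1 ^ 2 + q.2 ^ 2 = w)).card + 1 := by
  classical
  obtain ⟨s0, y0, h0⟩ := ZMod.sq_add_sq p w
  let S : Finset (Option (ZMod p)) :=
    insert none ((univ.filter (fun m : ZMod p => ¬ m ^ 2 = -1)).image some)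
  have hS : p ≤ S.card + 1 := by
    have h1 : S.card = (univ.filter (fun m : ZMod p => ¬ m ^ 2 = -1)).card + 1 := by
      rw [card_insert_of_notMem (by simp), card_image_of_injective _ (Option.some_injective _)]
    have h3 := card_filter_add_card_filter_not (s := (univ : Finset (ZMod p)))
      (fun m : ZMod p => m ^ 2 = -1)
    rw [card_univ, ZMod.card] at h3
    have h4 := card_sq (-1 : ZMod p)
    omega
  have hmap : ∀ o ∈ S, par s0 y0 o ∈
      univ.filter (fun q : ZMod p × ZMod p => q.1 ^ 2 + q.2 ^ 2 = w) := by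
    intro o ho
    rw [mem_filter]
    refine ⟨mem_univ _, ?_⟩
    rcases mem_insert.1 ho with rfl | ho
    · show s0 ^ 2 + (-y0) ^ 2 = w
      rw [neg_sq]
      exact h0
    · obtain ⟨m, hm, rfl⟩ := mem_image.1 ho
      have hm1 : (1 : ZMod p) + m ^ 2 ≠ 0 := by
        intro e
        exact (mem_filter.1 hm).2 (by linear_combination e)
      show (s0 + -2 * (s0 + m * y0) / (1 + m ^ 2)) ^ 2 +
        (y0 + m * (-2 * (s0 + m * y0) / (1 + m ^ 2))) ^ 2 = w
      rw [← h0]
      field_simp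
      ring
  have hinj : ∀ o ∈ S, ∀ o' ∈ S, par s0 y0 o = par s0 y0 o' → o = o' := by
    have hns : ∀ m : ZMod p, 1 + m ^ 2 ≠ 0 → par s0 y0 none ≠ par s0 y0 (some m) := by
      intro m hm1 e
      have e1 : s0 = s0 + -2 * (s0 + m * y0) / (1 + m ^ 2) := congrArg Prod.fst e
      have e2 : -y0 = y0 + m * (-2 * (s0 + m * y0) / (1 + m ^ 2)) := congrArg Prod.snd e
      have e3 : -2 * (s0 + m * y0) / (1 + m ^ 2) = 0 := by linear_combination -e1
      rw [e3] at e2
      have e4 : (2 : ZMod p) * y0 = 0 := by linear_combination -e2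
      have e5 : y0 = 0 := (mul_eq_zero.1 e4).resolve_left h2
      have e6 : -2 * (s0 + m * y0) = 0 := by
        rcases div_eq_zero_iff.1 e3 with h | h
        · exact h
        · exact absurd h hm1
      have e7 : (2 : ZMod p) * s0 = 0 := by rw [e5] at e6; linear_combination -e6
      have e8 : s0 = 0 := (mul_eq_zero.1 e7).resolve_left h2
      apply hw
      rw [← h0, e5, e8]
      ring
    have hss : ∀ m m' : ZMod p, 1 + m ^ 2 ≠ 0 → 1 + m' ^ 2 ≠ 0 →
        par s0 y0 (some m) = par s0 y0 (some m') → m = m' := by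
      intro m m' hm1 hm2 e
      have e1 : s0 + -2 * (s0 + m * y0) / (1 + m ^ 2) =
        s0 + -2 * (s0 + m' * y0) / (1 + m' ^ 2) := congrArg Prod.fst e
      have e2 : y0 + m * (-2 * (s0 + m * y0) / (1 + m ^ 2)) =
        y0 + m' * (-2 * (s0 + m' * y0) / (1 + m' ^ 2)) := congrArg Prod.snd e
      have e1' := add_left_cancel e1
      have e2' := add_left_cancel e2
      rw [← e1'] at e2'
      by_cases hτ : -2 * (s0 + m * y0) / (1 + m ^ 2) = 0
      · have e3 : -2 * (s0 + m * y0) = 0 := by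
          rcases div_eq_zero_iff.1 hτ with h | h
          · exact h
          · exact absurd h hm1
        have e4 : -2 * (s0 + m' * y0) = 0 := by
          rw [hτ] at e1'
          rcases div_eq_zero_iff.1 e1'.symm with h | h
          · exact h
          · exact absurd h hm2
        have e5 : (2 : ZMod p) * ((m - m') * y0) = 0 := by linear_combination e4 - e3
        rcases mul_eq_zero.1 ((mul_eq_zero.1 e5).resolve_left h2) with h | h
        · exact sub_eq_zero.1 h
        · exfalso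
          have e7 : (2 : ZMod p) * s0 = 0 := by rw [h] at e3; linear_combination -e3
          have e8 : s0 = 0 := (mul_eq_zero.1 e7).resolve_left h2
          apply hw
          rw [← h0, h, e8]
          ring
      · exact mul_right_cancel₀ hτ e2'
    have hmem : ∀ m : ZMod p, some m ∈ S → 1 + m ^ 2 ≠ 0 := by
      intro m hm e
      rcases mem_insert.1 hm with h | h
      · exact absurd h (by simp)
      · obtain ⟨m', hm', e'⟩ := mem_image.1 h
        have : m' = m := Option.some_injective _ e'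
        subst this
        exact (mem_filter.1 hm').2 (by linear_combination e)
    intro o ho o' ho' e
    cases o with
    | none =>
      cases o' with
      | none => rfl
      | some m => exact absurd e (hns m (hmem m ho'))
    | some m =>
      cases o' with
      | none => exact absurd e.symm (hns m (hmem m ho))
      | some m' => rw [hss m m' (hmem m ho) (hmem m' ho') e]
  have h5 := card_le_card_of_injOn (par s0 y0) hmap (fun o ho o' ho' e => hinj o ho o' ho' e)
  omega

lemma conic' (h2 : (2 : ZMod p) ≠ 0) (w : ZMod p) (hw : w ≠ 0) :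
    p ≤ (univ.filter (fun q : ZMod p × ZMod p => q.1 ^ 2 + q.2 ^ 2 = w ∧ q.2 ≠ 0)).card + 3 := by
  classical
  have h1 := conic h2 w hw
  have h3 : (univ.filter (fun q : ZMod p × ZMod p => q.1 ^ 2 + q.2 ^ 2 = w)) ⊆
      (univ.filter (fun q : ZMod p × ZMod p => q.1 ^ 2 + q.2 ^ 2 = w ∧ q.2 ≠ 0)) ∪
        (univ.filter (fun x : ZMod p => x ^ 2 = w)).image (fun x => (x, (0 : ZMod p))) := by
    intro q hq
    rw [mem_filter] at hq
    rw [mem_union]
    by_cases h : q.2 = 0
    · right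
      refine mem_image.2 ⟨q.1, ?_, Prod.ext rfl h.symm⟩
      rw [mem_filter]
      refine ⟨mem_univ _, ?_⟩
      rw [← hq.2, h]
      ring
    · left
      rw [mem_filter]
      exact ⟨mem_univ _, hq.2, h⟩
  have h4 := card_le_card h3
  have h5 := card_union_le (univ.filter (fun q : ZMod p × ZMod p => q.1 ^ 2 + q.2 ^ 2 = w ∧
    q.2 ≠ 0)) ((univ.filter (fun x : ZMod p => x ^ 2 = w)).image (fun x => (x, (0 : ZMod p))))
  have h6 : ((univ.filter (fun x : ZMod p => x ^ 2 = w)).image
      (fun x => (x, (0 : ZMod p)))).card ≤ 2 := card_image_le.trans (card_sq w)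
  omega

lemma fib (h2 : (2 : ZMod p) ≠ 0) (h : ZMod p) (hh : 2 * h = 1) (A ν : ZMod p)
    (hw : ν - A + h ^ 2 ≠ 0) :
    p ≤ (univ.filter (fun q : ZMod p × ZMod p =>
      A + q.1 ^ 2 + q.2 ^ 2 + q.2 = ν ∧ 2 * q.2 + 1 ≠ 0)).card + 3 := by
  classical
  have h1 := conic' h2 _ hw
  have h3 := card_le_card_of_injOn (s := univ.filter (fun q : ZMod p × ZMod p =>
    q.1 ^ 2 + q.2 ^ 2 = ν - A + h ^ 2 ∧ q.2 ≠ 0)) (t := univ.filter (fun q : ZMod p × ZMod p =>
      A + q.1 ^ 2 + q.2 ^ 2 + q.2 = ν ∧ 2 * q.2 + 1 ≠ 0)) (fun q => (q.1, q.2 - h)) (by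
    intro q hq
    have hq' := (mem_filter.1 (mem_coe.1 hq)).2
    refine mem_coe.2 (mem_filter.2 ⟨mem_univ _, ?_, ?_⟩)
    · show A + q.1 ^ 2 + (q.2 - h) ^ 2 + (q.2 - h) = ν
      linear_combination hq'.1 - q.2 * hh + h * hh
    · show 2 * (q.2 - h) + 1 ≠ 0
      intro e
      have e1 : 2 * q.2 = 0 := by linear_combination e + hh
      exact hq'.2 ((mul_eq_zero.1 e1).resolve_left h2)) (by
    intro q _ q' _ e
    have e1 : q.1 = q'.1 := (Prod.ext_iff.1 e).1
    have e2 : q.2 - h = q'.2 - h := (Prod.ext_iff.1 e).2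
    exact Prod.ext e1 (sub_left_injective e2))
  omega

lemma roots2 (h2 : (2 : ZMod p) ≠ 0) (u c : ZMod p) (hu : u ≠ 0) :
    (univ.filter (fun a : ZMod p => 20 * (u * a) ^ 2 + 2 * (u * a) = c)).card ≤ 2 := by
  classical
  by_cases h : ∃ a0 : ZMod p, 20 * (u * a0) ^ 2 + 2 * (u * a0) = c
  · obtain ⟨a0, h0⟩ := h
    have hmem : a0 ∈ univ.filter (fun a : ZMod p => 20 * (u * a) ^ 2 + 2 * (u * a) = c) :=
      mem_filter.2 ⟨mem_univ _, h0⟩
    rw [← card_erase_add_one hmem]
    have h1 : ((univ.filter (fun a : ZMod p => 20 * (u * a) ^ 2 + 2 * (u * a) = c)).erase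
        a0).card ≤ 1 := by
      rw [card_le_one]
      have key : ∀ a : ZMod p, a ≠ a0 → 20 * (u * a) ^ 2 + 2 * (u * a) = c →
          20 * (u * (a + a0)) + 2 = 0 := by
        intro a ha e
        have e1 : (u * (a - a0)) * (20 * (u * (a + a0)) + 2) = 0 := by
          linear_combination e - h0
        exact (mul_eq_zero.1 e1).resolve_left (mul_ne_zero hu (sub_ne_zero.2 ha))
      intro a ha b hb
      have ha' := mem_erase.1 ha
      have hb' := mem_erase.1 hb
      have ea := key a ha'.1 (mem_filter.1 ha'.2).2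
      have eb := key b hb'.1 (mem_filter.1 hb'.2).2
      have e3 : (20 : ZMod p) * (u * (a - b)) = 0 := by linear_combination ea - eb
      rcases mul_eq_zero.1 e3 with h | h
      · exfalso
        rw [h, zero_mul, zero_add] at ea
        exact h2 ea
      · exact sub_eq_zero.1 ((mul_eq_zero.1 h).resolve_left hu)
    omega
  · push Not at h
    rw [filter_false_of_mem (fun x _ => h x)]
    simp

end P

theorem t_RSP : RSP := by
  classical
  intro p hp h5 _ k ν
  have : Fact p.Prime := ⟨hp⟩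
  have h2 : (2 : ZMod p) ≠ 0 := by
    intro e
    have h1 : ((2 : ℕ) : ZMod p) = 0 := by exact_mod_cast e
    rw [ZMod.natCast_eq_zero_iff] at h1
    have := Nat.le_of_dvd (by norm_num) h1
    omega
  have hu : (2 : ZMod p) ^ k ≠ 0 := pow_ne_zero _ h2
  set u : ZMod p := 2 ^ k with hudef
  have hh : (2 : ZMod p) * (2 : ZMod p)⁻¹ = 1 := mul_inv_cancel₀ h2
  set h : ZMod p := (2 : ZMod p)⁻¹
  have hsum : rhoS p k ν = ∑ a : ZMod p, (univ.filter (fun q : ZMod p × ZMod p =>
      (20 * (u * a) ^ 2 + 2 * (u * a)) + q.1 ^ 2 + q.2 ^ 2 + q.2 = ν ∧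
        2 * q.2 + 1 ≠ 0)).card := by
    unfold rhoS
    simp only [card_filter, Fintype.sum_prod_type, ← hudef]
  have hG : p ≤ (univ.filter (fun a : ZMod p =>
      ¬ (20 * (u * a) ^ 2 + 2 * (u * a) = ν + h ^ 2))).card + 2 := by
    have h3 := card_filter_add_card_filter_not (s := (univ : Finset (ZMod p)))
      (fun a : ZMod p => 20 * (u * a) ^ 2 + 2 * (u * a) = ν + h ^ 2)
    rw [card_univ, ZMod.card] at h3
    have h4 := roots2 h2 u (ν + h ^ 2) hu
    omega
  have hlow : (univ.filter (fun a : ZMod p =>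
      ¬ (20 * (u * a) ^ 2 + 2 * (u * a) = ν + h ^ 2))).card * (p - 3) ≤ rhoS p k ν := by
    rw [hsum]
    calc (univ.filter (fun a : ZMod p =>
          ¬ (20 * (u * a) ^ 2 + 2 * (u * a) = ν + h ^ 2))).card * (p - 3)
        ≤ ∑ a ∈ univ.filter (fun a : ZMod p =>
            ¬ (20 * (u * a) ^ 2 + 2 * (u * a) = ν + h ^ 2)),
            (univ.filter (fun q : ZMod p × ZMod p =>
              (20 * (u * a) ^ 2 + 2 * (u * a)) + q.1 ^ 2 + q.2 ^ 2 + q.2 = ν ∧
                2 * q.2 + 1 ≠ 0)).card := by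
          rw [← smul_eq_mul]
          apply card_nsmul_le_sum
          intro a ha
          have ha' := (mem_filter.1 ha).2
          have := fib h2 h hh (20 * (u * a) ^ 2 + 2 * (u * a)) ν (by
            intro e
            exact ha' (by linear_combination -e))
          omega
      _ ≤ _ := by
          apply sum_le_sum_of_subset
          exact filter_subset _ _
  obtain ⟨q, rfl⟩ : ∃ q, p = q + 5 := ⟨p - 5, by omega⟩
  have e1 : q + 5 - 3 = q + 2 := by omega
  rw [e1] at hlow
  have e2 : q + 3 ≤ (univ.filter (fun a : ZMod (q + 5) =>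
      ¬ (20 * (u * a) ^ 2 + 2 * (u * a) = ν + h ^ 2))).card := by omega
  have e3 := Nat.mul_le_mul_right (q + 2) e2
  nlinarith

end Pool.Agent.N291.AO
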