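import Mathlib
import Pool.Agent.N604.MW.Stm11
import Pool.Agent.Helper523.UF.StatPhase

/-!
Project GC (helper604), leaf CL2: mean square over the centre (helper291).
-/

set_option autoImplicit false

namespace Pool.Agent.N291.GC

open Finset MeasureTheory Filter Topology Pool.Agent.N604.MW

/-! ### derivatives -/

theorem dF (m : ℕ) (hm : 1 ≤ m) (u : ℝ) :
    HasDerivAt (fun u : ℝ => u * |u| ^ m) ((m + 1) * |u| ^ m) u := by
  rcases eq_or_ne u 0 with rfl | hu
  · have h0 : ((m : ℝ) + 1) * |(0 : ℝ)| ^ m = 0 := by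
      rw [abs_zero, zero_pow (by omega), mul_zero]
    rw [h0, hasDerivAt_iff_tendsto_slope_zero]
    have h1 : Tendsto (fun t : ℝ => |t| ^ m) (𝓝[≠] 0) (𝓝 0) := by
      have h2 : Continuous fun t : ℝ => |t| ^ m := by fun_prop
      have h3 := h2.tendsto 0
      rw [abs_zero, zero_pow (by omega)] at h3
      exact h3.mono_left nhdsWithin_le_nhds
    refine h1.congr' ?_
    filter_upwards [self_mem_nhdsWithin] with t ht
    have ht' : t ≠ 0 := ht
    simp only [zero_add, zero_mul, sub_zero, smul_eq_mul]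
    field_simp
  · have h1 := (hasDerivAt_id u).mul ((hasDerivAt_abs hu).pow m)
    refine h1.congr_deriv ?_
    simp only [id, one_mul, Pi.pow_apply]
    obtain ⟨j, rfl⟩ : ∃ j, m = j + 1 := ⟨m - 1, by omega⟩
    have h2 : u * (SignType.sign u : ℝ) = |u| := self_mul_sign u
    rw [Nat.add_sub_cancel]
    push_cast
    calc |u| ^ (j + 1) + u * (((j : ℝ) + 1) * |u| ^ j * (SignType.sign u : ℝ))
        = |u| ^ (j + 1) + ((j : ℝ) + 1) * |u| ^ j * (u * (SignType.sign u : ℝ)) := by ring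
      _ = _ := by rw [h2]; ring

theorem dG (m : ℕ) (u : ℝ) :
    HasDerivAt (fun u : ℝ => |u| ^ (m + 2)) ((m + 2) * (u * |u| ^ m)) u := by
  rcases eq_or_ne u 0 with rfl | hu
  · rw [zero_mul, mul_zero, hasDerivAt_iff_tendsto_slope_zero]
    have h1 : Tendsto (fun t : ℝ => t * |t| ^ m) (𝓝[≠] 0) (𝓝 0) := by
      have h2 : Continuous fun t : ℝ => t * |t| ^ m := by fun_prop
      have h3 := h2.tendsto 0
      rw [zero_mul] at h3
      exact h3.mono_left nhdsWithin_le_nhds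
    refine h1.congr' ?_
    filter_upwards [self_mem_nhdsWithin] with t ht
    have ht' : t ≠ 0 := ht
    simp only [zero_add, abs_zero, smul_eq_mul]
    rw [zero_pow (by omega), sub_zero, pow_add, sq_abs]
    field_simp
  · have h1 := (hasDerivAt_abs hu).pow (m + 2)
    refine h1.congr_deriv ?_
    have h2 : |u| * (SignType.sign u : ℝ) = u := abs_mul_sign u
    have e : m + 2 - 1 = m + 1 := by omega
    rw [e]
    push_cast
    calc ((m : ℝ) + 2) * |u| ^ (m + 1) * (SignType.sign u : ℝ)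
        = ((m : ℝ) + 2) * |u| ^ m * (|u| * (SignType.sign u : ℝ)) := by ring
      _ = _ := by rw [h2]; ring

/-! ### lower bound of the derivative of the phase -/

theorem low (m : ℕ) (h u : ℝ) (hh : 0 < h) :
    h ^ (m + 1) / 2 ^ m ≤ u * |u| ^ m - (u - h) * |u - h| ^ m := by
  have h2 : (1 : ℝ) ≤ 2 ^ m := one_le_pow₀ (by norm_num)
  have hle : h ^ (m + 1) / 2 ^ m ≤ h ^ (m + 1) := div_le_self (by positivity) h2
  rcases le_total h u with h1 | h1
  · have hu : 0 ≤ u - h := by linarith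
    rw [abs_of_nonneg (by linarith : (0 : ℝ) ≤ u), abs_of_nonneg hu]
    have h3 : (u - h) ^ (m + 1) + h ^ (m + 1) ≤ (u - h + h) ^ (m + 1) :=
      pow_add_pow_le hu hh.le (Nat.succ_ne_zero m)
    rw [sub_add_cancel] at h3
    calc _ ≤ h ^ (m + 1) := hle
      _ ≤ u ^ (m + 1) - (u - h) ^ (m + 1) := by linarith
      _ = _ := by ring
  · rcases le_total 0 u with h4 | h4
    · have hu : 0 ≤ h - u := by linarith
      rw [abs_of_nonneg h4, abs_sub_comm, abs_of_nonneg hu]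
      have h3 := add_pow_le h4 hu (m + 1)
      rw [Nat.add_sub_cancel, add_sub_cancel] at h3
      rw [div_le_iff₀ (by positivity)]
      calc _ ≤ 2 ^ m * (u ^ (m + 1) + (h - u) ^ (m + 1)) := h3
        _ = _ := by ring
    · have hu : 0 ≤ -u := by linarith
      rw [abs_of_nonpos h4, abs_sub_comm, abs_of_nonneg (by linarith : (0 : ℝ) ≤ h - u)]
      have h3 : (-u) ^ (m + 1) + h ^ (m + 1) ≤ (-u + h) ^ (m + 1) :=
        pow_add_pow_le hu hh.le (Nat.succ_ne_zero m)
      have e : -u + h = h - u := by ring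
      rw [e] at h3
      calc _ ≤ h ^ (m + 1) := hle
        _ ≤ (h - u) ^ (m + 1) - (-u) ^ (m + 1) := by linarith
        _ = _ := by ring

/-! ### the oscillatory integral -/

/-- the phase -/
noncomputable def ph (m : ℕ) (h u : ℝ) : ℝ := |u| ^ (m + 2) - |u - h| ^ (m + 2)

theorem e_eq (x : ℝ) : e x = Pool.Agent.Helper523.UF.e x := by
  unfold e Pool.Agent.Helper523.UF.e
  push_cast
  rfl

theorem dph (m : ℕ) (h u : ℝ) : HasDerivAt (ph m h)
    ((m + 2) * (u * |u| ^ m - (u - h) * |u - h| ^ m)) u := by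
  have h1 := dG m u
  have h2 := (dG m (u - h)).comp u ((hasDerivAt_id u).sub_const h)
  refine (h1.sub h2).congr_deriv ?_
  ring

theorem ddph (m : ℕ) (hm : 1 ≤ m) (h u : ℝ) : HasDerivAt
    (fun u => ((m : ℝ) + 2) * (u * |u| ^ m - (u - h) * |u - h| ^ m))
    ((m + 2) * ((m + 1) * (|u| ^ m - |u - h| ^ m))) u := by
  have h1 := dF m hm u
  have h2 := (dF m hm (u - h)).comp u ((hasDerivAt_id u).sub_const h)
  refine ((h1.sub h2).const_mul ((m : ℝ) + 2)).congr_deriv ?_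
  ring

theorem ph_cont (m : ℕ) (h : ℝ) : Continuous (ph m h) := by
  unfold ph
  fun_prop

theorem e_cont : Continuous e := by
  unfold e
  fun_prop

/-- one piece -/
theorem piece (m : ℕ) (hm : 1 ≤ m) (h lam α β : ℝ) (hh : 0 < h) (hlam : 0 < lam) (hαβ : α ≤ β)
    (hside : β ≤ h / 2 ∨ h / 2 ≤ α) :
    ‖∫ u in α..β, e (lam * ph m h u)‖ ≤ 2 ^ m / (lam * h ^ (m + 1)) := by
  simp_rw [e_eq]
  have hY : 0 < lam * ((m + 2) * (h ^ (m + 1) / 2 ^ m)) := by positivity
  have hle := Pool.Agent.Helper523.UF.first_deriv hαβ hY (fun u => lam * ph m h u)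
    (fun u => lam * (((m : ℝ) + 2) * (u * |u| ^ m - (u - h) * |u - h| ^ m)))
    (fun u => lam * ((m + 2) * ((m + 1) * (|u| ^ m - |u - h| ^ m))))
    (fun u _ => (dph m h u).const_mul lam) (fun u _ => (ddph m hm h u).const_mul lam)
    (by fun_prop)
    (fun u _ => mul_le_mul_of_nonneg_left
      (mul_le_mul_of_nonneg_left (low m h u hh) (by positivity)) hlam.le) (by
      rcases hside with hs | hs
      · right
        intro u hu
        have h1 : |u| ^ m ≤ |u - h| ^ m := by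
          refine pow_le_pow_left₀ (abs_nonneg _) ?_ m
          rw [abs_sub_comm, abs_of_nonneg (by linarith [hu.2] : (0 : ℝ) ≤ h - u), abs_le]
          constructor <;> linarith [hu.2]
        have h2 : |u| ^ m - |u - h| ^ m ≤ 0 := by linarith
        exact mul_nonpos_of_nonneg_of_nonpos hlam.le (mul_nonpos_of_nonneg_of_nonpos (by positivity)
          (mul_nonpos_of_nonneg_of_nonpos (by positivity) h2))
      · left
        intro u hu
        have h1 : |u - h| ^ m ≤ |u| ^ m := by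
          refine pow_le_pow_left₀ (abs_nonneg _) ?_ m
          rw [abs_of_nonneg (by linarith [hu.1] : (0 : ℝ) ≤ u), abs_le]
          constructor <;> linarith [hu.1]
        have h2 : 0 ≤ |u| ^ m - |u - h| ^ m := by linarith
        positivity)
  refine hle.trans ?_
  rw [div_le_div_iff₀ (by positivity) (by positivity)]
  have hpi : 1 ≤ Real.pi := by linarith [Real.pi_gt_three]
  have h1 : (0 : ℝ) < h ^ (m + 1) := by positivity
  have h2 : (0 : ℝ) < 2 ^ m := by positivity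
  have e1 : 2 ^ m * (Real.pi * (lam * (((m : ℝ) + 2) * (h ^ (m + 1) / 2 ^ m)))) =
      Real.pi * (((m : ℝ) + 2) * (lam * h ^ (m + 1))) := by
    field_simp
  rw [e1, one_mul]
  have h3 : 0 < lam * h ^ (m + 1) := by positivity
  have h4 : 1 * (1 * (lam * h ^ (m + 1))) ≤ Real.pi * (((m : ℝ) + 2) * (lam * h ^ (m + 1))) :=
    mul_le_mul hpi (mul_le_mul_of_nonneg_right (by have : (0 : ℝ) ≤ m := by positivity
                                                   linarith) h3.le) (by positivity) (by positivity)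
  linarith

theorem osc_pos (m : ℕ) (hm : 1 ≤ m) (h lam α β : ℝ) (hh : 0 < h) (hlam : 0 < lam) (hαβ : α ≤ β) :
    ‖∫ u in α..β, e (lam * ph m h u)‖ ≤ 2 * (2 ^ m / (lam * h ^ (m + 1))) := by
  have h0 : 0 ≤ 2 ^ m / (lam * h ^ (m + 1)) := by positivity
  rcases le_total β (h / 2) with h1 | h1
  · linarith [piece m hm h lam α β hh hlam hαβ (Or.inl h1)]
  · rcases le_total (h / 2) α with h2 | h2
    · linarith [piece m hm h lam α β hh hlam hαβ (Or.inr h2)]
    · have hc : Continuous fun u => e (lam * ph m h u) :=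
        e_cont.comp (continuous_const.mul (ph_cont m h))
      rw [← intervalIntegral.integral_add_adjacent_intervals (hc.intervalIntegrable α (h / 2))
        (hc.intervalIntegrable (h / 2) β)]
      refine (norm_add_le _ _).trans ?_
      linarith [piece m hm h lam α (h / 2) hh hlam h2 (Or.inl le_rfl),
        piece m hm h lam (h / 2) β hh hlam h1 (Or.inr le_rfl)]

theorem osc (m : ℕ) (hm : 1 ≤ m) (h lam α β : ℝ) (hh : h ≠ 0) (hlam : lam ≠ 0) (hαβ : α ≤ β) :
    ‖∫ u in α..β, e (lam * ph m h u)‖ ≤ 2 * (2 ^ m / (|lam| * |h| ^ (m + 1))) := by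
  -- reduction to positive `lam`
  have key : ∀ (h lam α β : ℝ), 0 < h → lam ≠ 0 → α ≤ β →
      ‖∫ u in α..β, e (lam * ph m h u)‖ ≤ 2 * (2 ^ m / (|lam| * |h| ^ (m + 1))) := by
    intro h lam α β hh hlam hαβ
    rw [abs_of_pos hh]
    rcases lt_or_gt_of_ne hlam with hl | hl
    · have h1 := osc_pos m hm h (-lam) α β hh (by linarith) hαβ
      rw [abs_of_neg hl]
      refine le_trans (le_of_eq ?_) h1
      simp_rw [e_eq]
      rw [Pool.Agent.Helper523.UF.norm_int_neg]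
      congr 2
      funext u
      congr 1
      ring
    · rw [abs_of_pos hl]
      exact osc_pos m hm h lam α β hh hl hαβ
  rcases lt_or_gt_of_ne hh with h1 | h1
  · have h2 := key (-h) (-lam) (α - h) (β - h) (by linarith) (by simpa using hlam) (by linarith)
    rw [abs_neg, abs_neg] at h2
    refine le_trans (le_of_eq ?_) h2
    rw [← intervalIntegral.integral_comp_sub_right (fun u => e (-lam * ph m (-h) u)) h]
    congr 2
    funext u
    congr 1
    unfold ph
    have : u - h - -h = u := by ring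
    rw [this]
    ring
  · exact key h lam α β h1 hlam hαβ

theorem triv (m : ℕ) (h lam α β : ℝ) (hαβ : α ≤ β) :
    ‖∫ u in α..β, e (lam * ph m h u)‖ ≤ β - α := by
  simp_rw [e_eq]
  exact Pool.Agent.Helper523.UF.norm_int_trivial hαβ _

/-! ### the mean square as a sum of oscillatory integrals -/

theorem e_mul_conj (x y : ℝ) : e x * (starRingEnd ℂ) (e y) = e (x - y) := by
  unfold e
  rw [← Complex.exp_conj, ← Complex.exp_add]
  congr 1
  simp only [map_mul, Complex.conj_I, Complex.conj_ofReal, map_ofNat]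
  push_cast
  ring

theorem sq_eq (m : ℕ) (a γ t : ℝ) (B : Finset ℤ) :
    ((‖SG B (gk (m + 2) a γ) t‖ ^ 2 : ℝ) : ℂ) =
      ∑ x ∈ B, ∑ y ∈ B, e (t * a * ph m ((x : ℝ) - y) ((x : ℝ) - γ)) := by
  have h1 : ((‖SG B (gk (m + 2) a γ) t‖ ^ 2 : ℝ) : ℂ) =
      SG B (gk (m + 2) a γ) t * (starRingEnd ℂ) (SG B (gk (m + 2) a γ) t) := by
    rw [Complex.mul_conj']
    push_cast
    rfl
  rw [h1]
  unfold SG
  rw [map_sum, sum_mul_sum]
  refine sum_congr rfl fun x _ => sum_congr rfl fun y _ => ?_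
  rw [e_mul_conj]
  congr 1
  unfold gk ph
  have : (x : ℝ) - γ - (x - y) = y - γ := by ring
  rw [this]
  ring

/-- the integral over one unit interval -/
noncomputable def W (m : ℕ) (lam : ℝ) (h x : ℤ) : ℂ :=
  ∫ u in ((x : ℝ) - 1)..x, e (lam * ph m h u)

theorem cont (m : ℕ) (lam h : ℝ) : Continuous fun u => e (lam * ph m h u) :=
  e_cont.comp (continuous_const.mul (ph_cont m h))

theorem int_eq (m : ℕ) (a t : ℝ) (B : Finset ℤ) :
    ((∫ γ in (0 : ℝ)..1, ‖SG B (gk (m + 2) a γ) t‖ ^ 2 : ℝ) : ℂ) =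
      ∑ x ∈ B, ∑ y ∈ B, W m (t * a) (x - y) x := by
  rw [← intervalIntegral.integral_ofReal]
  simp_rw [sq_eq]
  have hc : ∀ x y : ℤ, Continuous fun γ : ℝ =>
      e (t * a * ph m ((x : ℝ) - y) ((x : ℝ) - γ)) := fun x y =>
    (cont m (t * a) ((x : ℝ) - y)).comp (continuous_const.sub continuous_id)
  rw [intervalIntegral.integral_finsetSum fun x _ =>
    (continuous_finsetSum B fun y _ => hc x y).intervalIntegrable _ _]
  refine sum_congr rfl fun x _ => ?_
  rw [intervalIntegral.integral_finsetSum fun y _ => (hc x y).intervalIntegrable _ _]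
  refine sum_congr rfl fun y _ => ?_
  unfold W
  have h1 := intervalIntegral.integral_comp_sub_left
    (fun u => e (t * a * ph m ((x : ℝ) - y) u)) (a := 0) (b := 1) (x : ℝ)
  rw [h1, sub_zero]
  push_cast
  rfl

theorem sum_adj (g : ℝ → ℂ) (hg : Continuous g) (c d : ℤ) (hcd : c + 1 ≤ d) :
    ∑ x ∈ Finset.Ioo c d, ∫ u in ((x : ℝ) - 1)..x, g u = ∫ u in (c : ℝ)..((d : ℝ) - 1), g u := by
  induction d, hcd using Int.leInduction with
  | base =>
    have : Finset.Ioo c (c + 1) = ∅ := by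
      ext x; simp only [Finset.mem_Ioo, Finset.notMem_empty, iff_false]; omega
    rw [this]
    simp
  | succ d hd ih =>
    have h1 : Finset.Ioo c (d + 1) = insert d (Finset.Ioo c d) := by
      ext x; simp only [Finset.mem_Ioo, Finset.mem_insert]; omega
    rw [h1, sum_insert (by simp), ih, add_comm,
      intervalIntegral.integral_add_adjacent_intervals (hg.intervalIntegrable _ _)
        (hg.intervalIntegrable _ _)]
    push_cast
    congr 1
    ring

theorem rearr (F : ℤ → ℤ → ℂ) (P : ℤ) (_hP : 1 ≤ P) :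
    ∑ x ∈ Finset.Ioo (-P) P, ∑ y ∈ Finset.Ioo (-P) P, F (x - y) x =
      ∑ h ∈ Finset.Ioo (-(2 * P)) (2 * P),
        ∑ x ∈ Finset.Ioo (max (-P) (h - P)) (min P (h + P)), F h x := by
  have h1 : ∀ x ∈ Finset.Ioo (-P) P, ∑ y ∈ Finset.Ioo (-P) P, F (x - y) x =
      ∑ h ∈ Finset.Ioo (x - P) (x + P), F h x := by
    intro x _
    refine Finset.sum_nbij' (fun y => x - y) (fun h => x - h) ?_ ?_ ?_ ?_ ?_
    · intro y hy; simp only [Finset.mem_Ioo] at hy ⊢; omega
    · intro y hy; simp only [Finset.mem_Ioo] at hy ⊢; omega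
    · intro y _; simp
    · intro y _; simp
    · intro y _; rfl
  rw [sum_congr rfl h1]
  refine Finset.sum_comm' fun x h => ?_
  simp only [Finset.mem_Ioo, max_lt_iff, lt_min_iff]
  omega

/-! ### the bound of the terms -/

theorem term_bound (m : ℕ) (hm : 1 ≤ m) (q p r v : ℝ) (i : ℕ) (hi : 1 ≤ i) (hq : 0 < q) (hp : 0 < p)
    (hr : 0 < r) (hr1 : r ^ (m + 1) = 1 / (q * p)) (hv1 : v ≤ 2 * p)
    (hv2 : v ≤ 2 ^ (m + 1) / (q * (i : ℝ) ^ (m + 1))) :
    v ≤ 4 * 2 ^ (m + 1) * p * (r ^ 2 / ((r + (i - 1)) * (r + (i - 1) + 1))) := by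
  have hi1 : (1 : ℝ) ≤ i := by exact_mod_cast hi
  have hi0 : (0 : ℝ) < i := by linarith
  have hd : 0 < (r + ((i : ℝ) - 1)) * (r + (i - 1) + 1) := by
    have : 0 < r + ((i : ℝ) - 1) := by linarith
    positivity
  have hK : (2 : ℝ) ≤ 2 ^ (m + 1) := by
    calc (2 : ℝ) = 2 ^ 1 := by norm_num
      _ ≤ 2 ^ (m + 1) := pow_le_pow_right₀ (by norm_num) (by omega)
  rcases le_total (i : ℝ) r with h | h
  · have h1 : 1 ≤ 4 * (r ^ 2 / ((r + ((i : ℝ) - 1)) * (r + (i - 1) + 1))) := by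
      rw [mul_div_assoc', le_div_iff₀ hd]
      nlinarith
    calc v ≤ 2 * p := hv1
      _ ≤ 2 ^ (m + 1) * p * 1 := by nlinarith
      _ ≤ 2 ^ (m + 1) * p * (4 * (r ^ 2 / ((r + ((i : ℝ) - 1)) * (r + (i - 1) + 1)))) :=
        mul_le_mul_of_nonneg_left h1 (by positivity)
      _ = _ := by ring
  · have h1 : (r / i) ^ 2 ≤ 4 * (r ^ 2 / ((r + ((i : ℝ) - 1)) * (r + (i - 1) + 1))) := by
      rw [div_pow, mul_div_assoc', div_le_div_iff₀ (by positivity) hd]
      have h2 : (r + ((i : ℝ) - 1)) * (r + (i - 1) + 1) ≤ 4 * (i : ℝ) ^ 2 := by nlinarith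
      nlinarith [mul_le_mul_of_nonneg_left h2 (sq_nonneg r)]
    have h2 : (r / i) ^ (m + 1) ≤ (r / i) ^ 2 :=
      pow_le_pow_of_le_one (by positivity) (by rw [div_le_one hi0]; exact h) (by omega)
    have h3 : 2 ^ (m + 1) / (q * (i : ℝ) ^ (m + 1)) = 2 ^ (m + 1) * p * (r / i) ^ (m + 1) := by
      rw [div_pow, hr1]
      field_simp
    calc v ≤ _ := hv2
      _ = 2 ^ (m + 1) * p * (r / i) ^ (m + 1) := h3
      _ ≤ 2 ^ (m + 1) * p * (4 * (r ^ 2 / ((r + ((i : ℝ) - 1)) * (r + (i - 1) + 1)))) :=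
        mul_le_mul_of_nonneg_left (h2.trans h1) (by positivity)
      _ = _ := by ring

theorem tele (r : ℝ) (hr : 0 < r) (n : ℕ) :
    ∑ i ∈ range n, r ^ 2 / ((r + i) * (r + i + 1)) ≤ r - r ^ 2 / (r + n) := by
  induction n with
  | zero =>
    simp only [range_zero, sum_empty, Nat.cast_zero, add_zero]
    rw [pow_two, mul_div_assoc, div_self hr.ne', mul_one, sub_self]
  | succ n ih =>
    rw [sum_range_succ]
    have hn : (0 : ℝ) ≤ n := by positivity
    have h1 : 0 < r + n := by positivity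
    have e1 : r ^ 2 / ((r + n) * (r + n + 1)) = r ^ 2 / (r + n) - r ^ 2 / (r + ((n + 1 : ℕ) : ℝ)) := by
      push_cast
      have h2 : r + ((n : ℝ) + 1) = r + n + 1 := by ring
      rw [h2]
      field_simp
      ring
    rw [e1]
    linarith

/-- sums over a symmetric interval of integers -/
theorem sym_sum (φ : ℕ → ℝ) (hφ : ∀ i, 0 ≤ φ i) (N : ℕ) (G : ℤ → ℝ)
    (hG : ∀ h ∈ Finset.Ioo (-(N : ℤ)) N, G h ≤ φ h.natAbs) :
    ∑ h ∈ Finset.Ioo (-(N : ℤ)) N, G h ≤ 2 * ∑ i ∈ range N, φ i := by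
  refine (sum_le_sum hG).trans ?_
  rw [← sum_filter_add_sum_filter_not (Finset.Ioo (-(N : ℤ)) N) (fun h => 0 ≤ h), two_mul]
  refine add_le_add ?_ ?_
  · rw [← Finset.sum_image (f := φ) (g := Int.natAbs)]
    · refine sum_le_sum_of_subset_of_nonneg ?_ fun i _ _ => hφ i
      intro i hi
      simp only [mem_image, mem_filter, Finset.mem_Ioo] at hi
      obtain ⟨h, hh, rfl⟩ := hi
      rw [mem_range]; omega
    · intro x hx y hy hxy
      simp only [coe_filter, Finset.mem_Ioo, Set.mem_ofPred_eq] at hx hy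
      omega
  · rw [← Finset.sum_image (f := φ) (g := Int.natAbs)]
    · refine sum_le_sum_of_subset_of_nonneg ?_ fun i _ _ => hφ i
      intro i hi
      simp only [mem_image, mem_filter, Finset.mem_Ioo] at hi
      obtain ⟨h, hh, rfl⟩ := hi
      rw [mem_range]; omega
    · intro x hx y hy hxy
      simp only [coe_filter, Finset.mem_Ioo, Set.mem_ofPred_eq] at hx hy
      omega

theorem main_bound (m : ℕ) (hm : 1 ≤ m) (a t : ℝ) (P : ℕ) (hP : 1 ≤ P) (hl : t * a ≠ 0) (r : ℝ)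
    (hr : 0 < r) (hr1 : r ^ (m + 1) = 1 / (|t * a| * P)) :
    ∫ γ in (0 : ℝ)..1, ‖SG (Finset.Ioo (-(P : ℤ)) P) (gk (m + 2) a γ) t‖ ^ 2 ≤
      4 * P + 8 * 2 ^ (m + 1) * (P * r) := by
  have hPr : (0 : ℝ) < P := by exact_mod_cast hP
  have h0 : ∫ γ in (0 : ℝ)..1, ‖SG (Finset.Ioo (-(P : ℤ)) P) (gk (m + 2) a γ) t‖ ^ 2 ≤
      ‖((∫ γ in (0 : ℝ)..1, ‖SG (Finset.Ioo (-(P : ℤ)) P) (gk (m + 2) a γ) t‖ ^ 2 : ℝ) : ℂ)‖ := by
    rw [Complex.norm_real]
    exact le_abs_self _
  refine h0.trans ?_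
  rw [int_eq, rearr _ _ (by exact_mod_cast hP)]
  refine (norm_sum_le _ _).trans ?_
  let φ : ℕ → ℝ := fun i => if i = 0 then 2 * P else
    4 * 2 ^ (m + 1) * P * (r ^ 2 / ((r + ((i : ℝ) - 1)) * (r + (i - 1) + 1)))
  have hφ : ∀ i, 0 ≤ φ i := by
    intro i
    simp only [φ]
    split_ifs with h
    · positivity
    · have : (1 : ℝ) ≤ i := by exact_mod_cast Nat.one_le_iff_ne_zero.2 h
      have h2 : 0 < r + ((i : ℝ) - 1) := by linarith
      positivity
  have hG : ∀ h ∈ Finset.Ioo (-((2 * P : ℕ) : ℤ)) ((2 * P : ℕ) : ℤ),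
      ‖∑ x ∈ Finset.Ioo (max (-(P : ℤ)) (h - P)) (min (P : ℤ) (h + P)), W m (t * a) h x‖ ≤
        φ h.natAbs := by
    intro h hh
    rw [Finset.mem_Ioo] at hh
    push_cast at hh
    have hcd : max (-(P : ℤ)) (h - P) + 1 ≤ min (P : ℤ) (h + P) := by omega
    have e1 : ∑ x ∈ Finset.Ioo (max (-(P : ℤ)) (h - P)) (min (P : ℤ) (h + P)), W m (t * a) h x =
        ∫ u in ((max (-(P : ℤ)) (h - P) : ℤ) : ℝ)..(((min (P : ℤ) (h + P) : ℤ) : ℝ) - 1),
          e (t * a * ph m h u) := by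
      unfold W
      exact sum_adj _ (cont m (t * a) h) _ _ hcd
    rw [e1]
    set c := max (-(P : ℤ)) (h - P) with hc
    set d := min (P : ℤ) (h + P) with hd
    have hcd' : ((c : ℤ) : ℝ) ≤ (d : ℝ) - 1 := by
      have : ((c + 1 : ℤ) : ℝ) ≤ (d : ℝ) := by exact_mod_cast hcd
      push_cast at this
      linarith
    have hlen : (d : ℝ) - 1 - c ≤ 2 * P := by
      have : d - c ≤ 2 * P := by omega
      have h2 : ((d - c : ℤ) : ℝ) ≤ ((2 * P : ℤ) : ℝ) := by exact_mod_cast this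
      push_cast at h2
      linarith
    have hv1 := (triv m h (t * a) c ((d : ℝ) - 1) hcd').trans hlen
    by_cases hh0 : h = 0
    · have : φ h.natAbs = 2 * P := by simp [φ, hh0]
      rw [this]
      exact hv1
    · have hn : h.natAbs ≠ 0 := by omega
      have : φ h.natAbs = 4 * 2 ^ (m + 1) * P *
          (r ^ 2 / ((r + ((h.natAbs : ℝ) - 1)) * (r + (h.natAbs - 1) + 1))) := by
        simp only [φ, if_neg hn]
      rw [this]
      refine term_bound m hm |t * a| P r _ h.natAbs (by omega) (abs_pos.2 hl) hPr hr hr1 hv1 ?_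
      have h3 := osc m hm h (t * a) c ((d : ℝ) - 1) (by exact_mod_cast hh0) hl hcd'
      refine h3.trans (le_of_eq ?_)
      have e2 : ((h.natAbs : ℕ) : ℝ) = |(h : ℝ)| := by
        rw [Nat.cast_natAbs]; push_cast; rfl
      rw [e2, pow_succ (2 : ℝ) m]
      ring
  have e3 : Finset.Ioo (-(2 * (P : ℤ))) (2 * P) =
      Finset.Ioo (-((2 * P : ℕ) : ℤ)) ((2 * P : ℕ) : ℤ) := by push_cast; rfl
  rw [e3]
  refine (sym_sum φ hφ (2 * P) _ hG).trans ?_
  have h4 : ∑ i ∈ range (2 * P), φ i ≤ 2 * P + 4 * 2 ^ (m + 1) * P * r := by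
    obtain ⟨M, hM⟩ : ∃ M, 2 * P = M + 1 := ⟨2 * P - 1, by omega⟩
    rw [hM, sum_range_succ', add_comm]
    refine add_le_add (le_of_eq (by simp [φ])) ?_
    have e4 : ∀ i ∈ range M, φ (i + 1) =
        4 * 2 ^ (m + 1) * P * (r ^ 2 / ((r + i) * (r + i + 1))) := by
      intro i _
      simp only [φ, Nat.add_eq_zero_iff, one_ne_zero, and_false, if_false]
      push_cast
      have : r + ((i : ℝ) + 1 - 1) = r + i := by ring
      rw [this]
    rw [sum_congr rfl e4, ← mul_sum]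
    refine mul_le_mul_of_nonneg_left ((tele r hr M).trans ?_) (by positivity)
    have : 0 ≤ r ^ 2 / (r + M) := by positivity
    linarith
  calc _ ≤ 2 * (2 * (P : ℝ) + 4 * 2 ^ (m + 1) * P * r) := by linarith
    _ = _ := by ring

theorem cl2 : S_CL2 := by
  intro k a hk ha
  obtain ⟨m, rfl⟩ : ∃ m, k = m + 2 := ⟨k - 2, by omega⟩
  have hm : 1 ≤ m := by omega
  have hm0 : (0 : ℝ) < (m : ℝ) + 1 := by positivity
  refine ⟨4 + 8 * 2 ^ (m + 1) * a ^ (-(1 / ((m : ℝ) + 1))), by positivity, fun ν t ht => ?_⟩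
  have hl : t * a ≠ 0 := mul_ne_zero ht ha.ne'
  have hq : 0 < |t * a| := abs_pos.2 hl
  set p : ℝ := 2 ^ ν with hp
  have hp0 : 0 < p := by positivity
  set r : ℝ := (|t * a| * p) ^ (-(1 / ((m : ℝ) + 1))) with hr
  have hr0 : 0 < r := Real.rpow_pos_of_pos (by positivity) _
  have hr1 : r ^ (m + 1) = 1 / (|t * a| * ((2 ^ ν : ℕ) : ℝ)) := by
    rw [hr, ← Real.rpow_natCast, ← Real.rpow_mul (by positivity)]
    have : -(1 / ((m : ℝ) + 1)) * ((m + 1 : ℕ) : ℝ) = -1 := by
      push_cast; field_simp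
    rw [this, Real.rpow_neg_one, one_div]
    push_cast
    rfl
  have h := main_bound m hm a t (2 ^ ν) Nat.one_le_two_pow hl r hr0 hr1
  have hB : BX ν = Finset.Ioo (-((2 ^ ν : ℕ) : ℤ)) ((2 ^ ν : ℕ) : ℤ) := by
    unfold BX
    push_cast
    rfl
  rw [hB]
  refine h.trans ?_
  have e1 : (((m + 2 : ℕ) : ℝ) - 2) / (((m + 2 : ℕ) : ℝ) - 1) = 1 + -(1 / ((m : ℝ) + 1)) := by
    push_cast
    have : (m : ℝ) + 2 - 1 = m + 1 := by ring
    rw [this]
    field_simp
    ring
  have e2 : -(1 / (((m + 2 : ℕ) : ℝ) - 1)) = -(1 / ((m : ℝ) + 1)) := by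
    push_cast
    have : (m : ℝ) + 2 - 1 = m + 1 := by ring
    rw [this]
  rw [e1, e2, Real.rpow_add hp0, Real.rpow_one]
  have e3 : r = |t| ^ (-(1 / ((m : ℝ) + 1))) * a ^ (-(1 / ((m : ℝ) + 1))) *
      p ^ (-(1 / ((m : ℝ) + 1))) := by
    rw [hr, abs_mul, abs_of_pos ha, Real.mul_rpow (by positivity) hp0.le,
      Real.mul_rpow (abs_nonneg _) ha.le]
  have e4 : (((2 ^ ν : ℕ) : ℝ)) = p := by rw [hp]; push_cast; rfl
  rw [e4, e3]
  set A := a ^ (-(1 / ((m : ℝ) + 1)))
  set T := |t| ^ (-(1 / ((m : ℝ) + 1)))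
  set Q := p ^ (-(1 / ((m : ℝ) + 1)))
  have hA : 0 < A := Real.rpow_pos_of_pos ha _
  have hT : 0 < T := Real.rpow_pos_of_pos (abs_pos.2 ht) _
  have hQ : 0 < Q := Real.rpow_pos_of_pos hp0 _
  have h5 : (4 + 8 * 2 ^ (m + 1) * A) * (p + p * Q * T) =
      4 * p + 8 * 2 ^ (m + 1) * (p * (T * A * Q)) + (8 * 2 ^ (m + 1) * A * p + 4 * (p * Q * T)) := by
    ring
  rw [h5]
  have : 0 ≤ 8 * 2 ^ (m + 1) * A * p + 4 * (p * Q * T) := by positivity
  linarith

end Pool.Agent.N291.GC
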