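import Pool.Agent.N894.WF.DefsG

/-!
# Project WF, leaf G0 (helper291): words of length one
-/

set_option autoImplicit false

namespace Pool.Agent.N291.WF

open N894.WF

theorem t_G0 : LeafG0 := by
  classical
  intro V X Γ _ hR F K
  let V0 : Finset V := F.image Sigma.fst
  let Fv : ∀ v : V, Finset (Γ v) := fun v =>
    F.preimage (Sigma.mk v) (sigma_mk_injective.injOn)
  have hFv : ∀ v (a : Γ v), a ∈ Fv v ↔ (⟨v, a⟩ : Σ v, Γ v) ∈ F := fun v a =>
    Finset.mem_preimage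
  choose Q iQ fQ ψ hψ using fun v => hR v (Fv v) K
  let φ : (v : V) → Γ v → (∀ v : {x // x ∈ V0}, Q v.1) := fun v a =>
    if h : v ∈ V0 then Pi.mulSingle (⟨v, h⟩ : {x // x ∈ V0}) (ψ v a) else 1
  have e1 : ∀ (v : V) (h : v ∈ V0) (a : Γ v), φ v a ⟨v, h⟩ = ψ v a := by
    intro v h a
    show (if h : v ∈ V0 then Pi.mulSingle (⟨v, h⟩ : {x // x ∈ V0}) (ψ v a) else 1 :
      ∀ v : {x // x ∈ V0}, Q v.1) ⟨v, h⟩ = ψ v a
    rw [dif_pos h, Pi.mulSingle_eq_same]
  have e2 : ∀ (u v : V) (h : v ∈ V0) (a : Γ u), u ≠ v → φ u a ⟨v, h⟩ = 1 := by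
    intro u v h a huv
    show (if h : u ∈ V0 then Pi.mulSingle (⟨u, h⟩ : {x // x ∈ V0}) (ψ u a) else 1 :
      ∀ v : {x // x ∈ V0}, Q v.1) ⟨v, h⟩ = 1
    by_cases hu : u ∈ V0
    · rw [dif_pos hu, Pi.mulSingle_eq_of_ne]
      intro e
      exact huv (congrArg Subtype.val e).symm
    · rw [dif_neg hu]
      rfl
  refine ⟨∀ v : {x // x ∈ V0}, Q v.1, inferInstance, inferInstance, φ, ?_, ?_⟩
  · intro u v huv a b
    have hne : u ≠ v := huv.ne
    show φ u a * φ v b = φ v b * φ u a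
    funext w
    obtain ⟨w, hw⟩ := w
    rw [Pi.mul_apply, Pi.mul_apply]
    by_cases h : u = w
    · subst h
      rw [e2 v u hw b hne.symm, mul_one, one_mul]
    · rw [e2 u w hw a h, mul_one, one_mul]
  · intro l hl hlF _ S hS T hT hE c hc s hs heq
    obtain ⟨x, hx, hxS⟩ := hS
    have hl1 : l = [x] := by
      match l, hl, hx with
      | [y], _, hx => rw [List.mem_singleton.1 hx]
      | y :: z :: r, hl, _ =>
        simp only [List.length_cons] at hl
        omega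
    subst hl1
    obtain ⟨v, a⟩ := x
    obtain ⟨hF1, ha⟩ := hlF _ hx
    have hv : v ∈ V0 := Finset.mem_image.2 ⟨_, hF1, rfl⟩
    let π : (∀ v : {x // x ∈ V0}, Q v.1) →* Q v :=
      Pi.evalMonoidHom (fun v : {x // x ∈ V0} => Q v.1) ⟨v, hv⟩
    have hπ : ∀ z, π z = z ⟨v, hv⟩ := fun _ => rfl
    have hs1 : π s = 1 := by
      have h1 : Lbar φ S ≤ π.ker := by
        refine (Subgroup.closure_le _).2 ?_
        rintro z ⟨t, htS, b, rfl⟩
        show φ t b ∈ π.ker
        rw [MonoidHom.mem_ker, hπ]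
        refine e2 t v hv b ?_
        rintro rfl
        exact hxS htS
      exact MonoidHom.mem_ker.1 (h1 hs)
    have h2 : ψ v a = π c := by
      have h3 : ev φ [(⟨v, a⟩ : Σ v, Γ v)] = φ v a := by
        simp [ev]
      rw [h3] at heq
      have h4 := congrArg π heq
      rw [map_mul, hs1, mul_one, hπ, e1] at h4
      exact h4
    let T' : Finset (Q v) := (T.image π).erase 1
    have hcard : T'.card ≤ K :=
      (Finset.card_erase_le.trans Finset.card_image_le).trans hT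
    have hErr : IsErrSet (ψ v) (Fv v) T' := by
      intro t ht
      obtain ⟨ht1, ht2⟩ := Finset.mem_erase.1 ht
      obtain ⟨τ, hτ, rfl⟩ := Finset.mem_image.1 ht2
      obtain ⟨z, u, b, d, hb, hd, rfl⟩ := hE τ hτ
      by_cases huv : u = v
      · subst huv
        refine ⟨z ⟨u, hv⟩, b, (hFv u b).2 hb, d, (hFv u d).2 hd, ?_⟩
        rw [hπ]
        show z ⟨u, hv⟩ * (φ u b ⟨u, hv⟩ * φ u d ⟨u, hv⟩ * (φ u (b * d) ⟨u, hv⟩)⁻¹) *
          (z ⟨u, hv⟩)⁻¹ = _
        rw [e1, e1, e1]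
      · exfalso
        apply ht1
        rw [hπ]
        show z ⟨v, hv⟩ * (φ u b ⟨v, hv⟩ * φ u d ⟨v, hv⟩ * (φ u (b * d) ⟨v, hv⟩)⁻¹) *
          (z ⟨v, hv⟩)⁻¹ = 1
        rw [e2 u v hv _ huv, e2 u v hv _ huv, e2 u v hv _ huv]
        simp
    have hcl : π c ∈ Subgroup.closure (T' : Set (Q v)) := by
      have h5 : π c ∈ (Subgroup.closure (T : Set (∀ v : {x // x ∈ V0}, Q v.1))).map π :=
        Subgroup.mem_map_of_mem π hc
      rw [MonoidHom.map_closure] at h5
      refine (Subgroup.closure_le _).2 ?_ h5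
      rintro t ⟨τ, hτ, rfl⟩
      by_cases h1 : π τ = 1
      · rw [h1]
        exact one_mem _
      · exact Subgroup.subset_closure (Finset.mem_coe.2 (Finset.mem_erase.2
          ⟨h1, Finset.mem_image_of_mem π hτ⟩))
    rw [← h2] at hcl
    exact hψ v T' hcard hErr a ((hFv v a).2 hF1) ha hcl

end Pool.Agent.N291.WF
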